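import Pool.Agent.EDX.Stmts3

/-!
# Squad EDX, row ANN
-/

set_option autoImplicit false

namespace Pool.Agent.EDX.H68

open Finset Pool.Agent.EDG Pool.Agent.EDX MeasureTheory

/-- one shell -/
theorem ann_shell (R : ℝ) (hR : 0 < R) :
    ∫⁻ u in {u : ℂ | R / 2 < ‖u‖ ∧ ‖u‖ ≤ R}, ENNReal.ofReal (1 / ‖u‖ ^ 2) ≤
      ENNReal.ofReal (4 * Real.pi) := by
  have hm : MeasurableSet {u : ℂ | R / 2 < ‖u‖ ∧ ‖u‖ ≤ R} := by
    apply MeasurableSet.inter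
    · exact measurableSet_lt measurable_const measurable_norm
    · exact measurableSet_le measurable_norm measurable_const
  have h1 : ∫⁻ u in {u : ℂ | R / 2 < ‖u‖ ∧ ‖u‖ ≤ R}, ENNReal.ofReal (1 / ‖u‖ ^ 2) ≤
      ∫⁻ u in {u : ℂ | R / 2 < ‖u‖ ∧ ‖u‖ ≤ R}, ENNReal.ofReal (4 / R ^ 2) := by
    apply setLIntegral_mono' hm
    intro u hu
    apply ENNReal.ofReal_le_ofReal
    have h2 : R / 2 < ‖u‖ := hu.1
    have h3 : (R / 2) ^ 2 ≤ ‖u‖ ^ 2 := by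
      apply pow_le_pow_left₀ (by positivity) h2.le
    calc 1 / ‖u‖ ^ 2 ≤ 1 / (R / 2) ^ 2 := one_div_le_one_div_of_le (by positivity) h3
      _ = 4 / R ^ 2 := by field_simp; norm_num
  refine h1.trans ?_
  rw [setLIntegral_const]
  have h4 : volume {u : ℂ | R / 2 < ‖u‖ ∧ ‖u‖ ≤ R} ≤ ENNReal.ofReal (R ^ 2 * Real.pi) := by
    have h5 : {u : ℂ | R / 2 < ‖u‖ ∧ ‖u‖ ≤ R} ⊆ Metric.closedBall (0 : ℂ) R := by
      intro u hu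
      rw [mem_closedBall_zero_iff]
      exact hu.2
    refine (measure_mono h5).trans (le_of_eq ?_)
    rw [Complex.volume_closedBall, ENNReal.ofReal_mul (by positivity), ENNReal.ofReal_pow hR.le]
    congr 1
    rw [← NNReal.coe_real_pi, ENNReal.ofReal_coe_nnreal]
  calc ENNReal.ofReal (4 / R ^ 2) * volume {u : ℂ | R / 2 < ‖u‖ ∧ ‖u‖ ≤ R}
      ≤ ENNReal.ofReal (4 / R ^ 2) * ENNReal.ofReal (R ^ 2 * Real.pi) := by gcongr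
    _ = ENNReal.ofReal (4 * Real.pi) := by
        rw [← ENNReal.ofReal_mul (by positivity)]
        congr 1
        field_simp

/-- the union of `n` shells -/
theorem ann_shells (n : ℕ) :
    ∫⁻ u in {u : ℂ | 7 / (2 : ℝ) ^ n < ‖u‖ ∧ ‖u‖ ≤ 7}, ENNReal.ofReal (1 / ‖u‖ ^ 2) ≤
      ENNReal.ofReal (n * (4 * Real.pi)) := by
  induction n with
  | zero =>
    have h1 : {u : ℂ | 7 / (2 : ℝ) ^ 0 < ‖u‖ ∧ ‖u‖ ≤ 7} = ∅ := by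
      apply Set.eq_empty_of_forall_notMem
      intro u hu
      have h2 : 7 / (2 : ℝ) ^ 0 < ‖u‖ := hu.1
      have h3 : ‖u‖ ≤ 7 := hu.2
      rw [pow_zero, div_one] at h2
      linarith
    rw [h1]
    simp
  | succ n ih =>
    have h1 : {u : ℂ | 7 / (2 : ℝ) ^ (n + 1) < ‖u‖ ∧ ‖u‖ ≤ 7} ⊆
        {u : ℂ | 7 / (2 : ℝ) ^ n < ‖u‖ ∧ ‖u‖ ≤ 7} ∪
        {u : ℂ | 7 / (2 : ℝ) ^ n / 2 < ‖u‖ ∧ ‖u‖ ≤ 7 / (2 : ℝ) ^ n} := by
      intro u hu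
      have h2 : 7 / (2 : ℝ) ^ (n + 1) < ‖u‖ := hu.1
      have h3 : ‖u‖ ≤ 7 := hu.2
      rcases lt_or_ge (7 / (2 : ℝ) ^ n) ‖u‖ with h | h
      · exact Or.inl ⟨h, h3⟩
      · refine Or.inr ⟨?_, h⟩
        rw [div_div, ← pow_succ]
        exact h2
    calc ∫⁻ u in {u : ℂ | 7 / (2 : ℝ) ^ (n + 1) < ‖u‖ ∧ ‖u‖ ≤ 7}, ENNReal.ofReal (1 / ‖u‖ ^ 2)
        ≤ ∫⁻ u in {u : ℂ | 7 / (2 : ℝ) ^ n < ‖u‖ ∧ ‖u‖ ≤ 7} ∪
        {u : ℂ | 7 / (2 : ℝ) ^ n / 2 < ‖u‖ ∧ ‖u‖ ≤ 7 / (2 : ℝ) ^ n},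
          ENNReal.ofReal (1 / ‖u‖ ^ 2) := lintegral_mono_set h1
      _ ≤ _ + _ := lintegral_union_le _ _ _
      _ ≤ ENNReal.ofReal (n * (4 * Real.pi)) + ENNReal.ofReal (4 * Real.pi) :=
          add_le_add ih (ann_shell _ (by positivity))
      _ = ENNReal.ofReal ((n + 1 : ℕ) * (4 * Real.pi)) := by
          rw [← ENNReal.ofReal_add (by positivity) (by positivity)]
          congr 1
          push_cast
          ring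

theorem ann : AnnStmt := by
  intro q
  have h1 : {u : ℂ | 1 / (7 : ℝ) ^ q ≤ ‖u‖ ∧ ‖u‖ ≤ 7} ⊆
      {u : ℂ | 7 / (2 : ℝ) ^ (3 * (q + 1)) < ‖u‖ ∧ ‖u‖ ≤ 7} := by
    intro u hu
    refine ⟨lt_of_lt_of_le ?_ hu.1, hu.2⟩
    rw [div_lt_div_iff₀ (by positivity) (by positivity), one_mul, pow_mul, ← pow_succ']
    norm_num
    exact pow_lt_pow_left₀ (by norm_num) (by norm_num) (by omega)
  calc ∫⁻ u in {u : ℂ | 1 / (7 : ℝ) ^ q ≤ ‖u‖ ∧ ‖u‖ ≤ 7}, ENNReal.ofReal (1 / ‖u‖ ^ 2)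
      ≤ ∫⁻ u in {u : ℂ | 7 / (2 : ℝ) ^ (3 * (q + 1)) < ‖u‖ ∧ ‖u‖ ≤ 7},
        ENNReal.ofReal (1 / ‖u‖ ^ 2) := lintegral_mono_set h1
    _ ≤ ENNReal.ofReal ((3 * (q + 1) : ℕ) * (4 * Real.pi)) := ann_shells _
    _ ≤ ENNReal.ofReal (60 * (q + 1)) := by
        apply ENNReal.ofReal_le_ofReal
        push_cast
        have h2 : Real.pi ≤ 4 := Real.pi_le_four
        have h3 : (0 : ℝ) ≤ q := Nat.cast_nonneg q
        nlinarith [Real.pi_lt_d2, mul_nonneg h3 (sub_nonneg.mpr Real.pi_lt_d2.le)]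

end Pool.Agent.EDX.H68
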