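import Pool.Agent.EDX.Stmts3

/-!
# Squad EDX, row BLK
-/

set_option autoImplicit false

namespace Pool.Agent.EDX.H68

open Finset Pool.Agent.EDG Pool.Agent.EDX

theorem blk (had : HadStmt) : BlkStmt := by
  intro ι κ _ _ _ _ B Y
  have h1 := had (κ ⊕ ι) (Matrix.fromBlocks 1 Y (-B) 0)
  rw [Matrix.det_fromBlocks_one₁₁] at h1
  have h2 : (0 : Matrix ι ι ℂ) - -B * Y = B * Y := by
    rw [Matrix.neg_mul, sub_neg_eq_add, zero_add]
  rw [h2, Fintype.prod_sum_type] at h1
  refine h1.trans (le_of_eq ?_)
  congr 1
  · apply prod_congr rfl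
    intro x _
    rw [Fintype.sum_sum_type]
    congr 1
    · rw [Finset.sum_eq_single x]
      · simp
      · intro i _ hi
        simp [Matrix.one_apply_ne hi]
      · intro hx
        exact absurd (mem_univ x) hx
    · apply sum_congr rfl
      intro r _
      simp
  · apply prod_congr rfl
    intro p _
    rw [Fintype.sum_sum_type]
    simp

end Pool.Agent.EDX.H68
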