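import Pool.Agent.EDX.Stmts3

/-!
# Squad EDX, row CPT
-/

set_option autoImplicit false

namespace Pool.Agent.EDX.H68

open Polynomial Finset Pool.Agent.EDG Pool.Agent.EDX

theorem cpt_cont (P : ℤ[X][X]) : Continuous fun p : ℂ × ℂ => ev p.1 p.2 P := by
  induction P using Polynomial.induction_on' with
  | add P Q hP hQ =>
    simp only [map_add]
    exact hP.add hQ
  | monomial n a =>
    have h1 : ∀ p : ℂ × ℂ, ev p.1 p.2 (monomial n a) = aeval p.1 a * p.2 ^ n := by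
      intro p
      rw [← C_mul_X_pow_eq_monomial, map_mul, map_pow, ev_X, ev_C]
    simp only [h1]
    exact ((Polynomial.continuous_aeval a).comp continuous_fst).mul (continuous_snd.pow n)

theorem cpt_f (q : ℕ) (T : Matrix (Fin (2 ^ q)) (Fin (2 ^ q)) ℂ) :
    Continuous fun p : ℂ × ℂ => ∑ l, ‖(T.mulVec (hv (2 ^ q) p.1 p.2)) l‖ ^ 2 := by
  apply continuous_finsetSum
  intro l _
  apply Continuous.pow
  apply Continuous.norm
  show Continuous fun p : ℂ × ℂ => ∑ j, T l j * hv (2 ^ q) p.1 p.2 j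
  apply continuous_finsetSum
  intro j _
  exact continuous_const.mul (cpt_cont _)

theorem cpt (tbm : TbmStmt) (cpk : CpkStmt) : CptStmt := by
  intro q
  obtain ⟨hP, hK, -⟩ := cpk
  choose! T hT0 hT1 hT2 using fun b (hb : b ∈ PP) => tbm b hb q
  set A : ℝ := 36000 * (q + 1) * 2 ^ q with hA
  have hA0 : 0 < A := by positivity
  have hU : ∀ b (hb : b ∈ PP), {b' : ℂ | ∀ y : ℂ, (b', y) ∈ KP →
      ∑ l, ‖((T b)⁻¹.mulVec (hv (2 ^ q) b' y)) l‖ ^ 2 ≤ A} ∈ nhds b := by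
    intro b hb
    have h1 : IsCompact (KP ∩ {p : ℂ × ℂ | A ≤ ∑ l, ‖((T b)⁻¹.mulVec (hv (2 ^ q) p.1 p.2)) l‖ ^ 2}) :=
      hK.inter_right (isClosed_le continuous_const (cpt_f q _))
    have h2 := (h1.image continuous_fst).isClosed.isOpen_compl
    refine Filter.mem_of_superset (h2.mem_nhds ?_) ?_
    · rintro ⟨⟨b', y⟩, ⟨h3, h4⟩, h5⟩
      have h6 : b' = b := h5
      subst h6
      have h7 := hT2 b' hb y h3
      have h8 : A ≤ ∑ l, ‖((T b')⁻¹.mulVec (hv (2 ^ q) b' y)) l‖ ^ 2 := h4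
      have h9 : 18000 * ((q : ℝ) + 1) * 2 ^ q = A / 2 := by rw [hA]; ring
      linarith
    · intro b' hb' y hy
      by_contra h3
      exact hb' ⟨(b', y), ⟨hy, (not_le.mp h3).le⟩, rfl⟩
  obtain ⟨t, ht⟩ := hP.elim_nhds_subcover' _ hU
  refine ⟨t.card, fun a => T ((t.equivFin.symm a : PP) : ℂ), fun a => ?_, fun b hb => ?_⟩
  · exact ⟨hT0 _ (t.equivFin.symm a : PP).2, hT1 _ (t.equivFin.symm a : PP).2⟩
  · have h1 := ht hb
    simp only [Set.mem_iUnion] at h1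
    obtain ⟨x, hx, h2⟩ := h1
    refine ⟨t.equivFin ⟨x, hx⟩, fun y hy => ?_⟩
    simp only [Equiv.symm_apply_apply]
    exact h2 y hy

end Pool.Agent.EDX.H68
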